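import Pool.Agent.W2helper64.SI.Gen

set_option autoImplicit false
set_option linter.unusedSectionVars false

/-!
Short intervals in the random sieve: the first phase.
-/

namespace Pool.Agent.W2helper64.SI

open Finset Filter Topology Polynomial MeasureTheory Pool.Agent.W2helper64.RS Pool.Agent.W2helper64.RK
open Pool.Agent.W2helper64.BH
open Pool.Agent.H373R2.T7 (pz nuB PerB sys_count nuB_le mem_pz)

/-- the shifted condition -/
def Sh (Q : ℕ → ℕ → Prop) (s p n : ℕ) : Prop := Q p (s + n)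

theorem sh_per {Q : ℕ → ℕ → Prop} {c : ℕ} (h : PerB Q c) (s : ℕ) (p n : ℕ) : Sh Q s p n ↔ Sh Q s p (n % p) := by
  unfold Sh
  rw [h.per p (s + n), h.per p (s + n % p), Nat.add_mod s (n % p), Nat.mod_mod, ← Nat.add_mod]

theorem nuB_sh {Q : ℕ → ℕ → Prop} {c : ℕ} (h : PerB Q c) (s : ℕ) {p : ℕ} (hp : p.Prime) :
    nuB (Sh Q s) p = nuB Q p := by
  have e1 : ∀ Q' : ℕ → ℕ → Prop, nuB Q' p = (@Finset.filter ℕ (fun j => Q' p j) (Classical.decPred _) (range p)).card := by
    intro Q'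
    unfold nuB
    congr
  rw [e1, e1]
  apply le_antisymm
  · exact shift_le (fun n => Q p n) hp.pos (fun n => h.per p n) s
  · have h2 := shift_le (fun n => Sh Q s p n) hp.pos (fun n => sh_per h s p n) (p * s - s)
    refine le_trans (le_of_eq ?_) h2
    congr 1
    ext j
    rw [mf', mf']
    refine and_congr_right fun _ => ?_
    unfold Sh
    have h3 : s ≤ p * s := Nat.le_mul_of_pos_left s hp.pos
    rw [show s + (p * s - s + j) = p * s + j by omega, h.per p (p * s + j), h.per p j, Nat.mul_add_mod]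

theorem perB_sh {Q : ℕ → ℕ → Prop} {c : ℕ} (h : PerB Q c) (s : ℕ) : PerB (Sh Q s) c :=
  ⟨fun p n => sh_per h s p n, fun p hp => (nuB_sh h s hp).le.trans (h.few p hp)⟩

/-- large powers of `h` beat everything -/
theorem ev_h (M : ℕ) (B : ℝ) : ∀ᶠ x : ℕ in atTop, ∀ H : ℕ, Real.log x ≤ Real.log H ^ M → B ≤ Real.log H := by
  filter_upwards [ev_log ((max B 0 + 1) ^ M + 1)] with x hx H hH
  by_contra hcon
  have h0 : 0 ≤ Real.log (H : ℝ) := Real.log_natCast_nonneg H
  have h1 : Real.log (H : ℝ) ≤ max B 0 + 1 := by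
    have := le_max_left B 0
    linarith [not_le.mp hcon]
  have h2 : Real.log (H : ℝ) ^ M ≤ (max B 0 + 1) ^ M := pow_le_pow_left₀ h0 h1 M
  linarith

theorem ev_loglin (c : ℝ) : ∀ᶠ u : ℝ in atTop, c * Real.log u ≤ u / 2 := by
  have h0 : Tendsto (fun u : ℝ => Real.log u / u) atTop (𝓝 0) := Real.isLittleO_log_id_atTop.tendsto_div_nhds_zero
  have h1 := h0.const_mul c
  rw [mul_zero] at h1
  filter_upwards [h1.eventually (gt_mem_nhds (show (0 : ℝ) < 1 / 2 by norm_num)), eventually_gt_atTop 0] with u h2 h3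
  have h4 : c * (Real.log u / u) * u < 1 / 2 * u := mul_lt_mul_of_pos_right h2 h3
  have h5 : c * (Real.log u / u) * u = c * Real.log u := by field_simp
  linarith

/-- the count of the first phase in all windows -/
theorem count_phaseW {g : ℕ} (f : Fin g → ℤ[X]) (k : ℕ) (hd : ∀ i, 0 < (f i).natDegree)
    (hl : ∀ i, 0 < (f i).leadingCoeff) (hk : ∑ i, (f i).natDegree ≤ k) (E U M : ℕ) : ∀ᶠ x : ℕ in atTop,
    ∀ a : (p : Nat.Primes) → ZMod (p : ℕ), ∀ H : ℕ, Real.log x ≤ Real.log H ^ M → ∀ y, x ≤ y → y ≤ x + H →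
      |(((@Finset.filter ℕ (fun n => ∀ p ∈ pz (zz E x), ¬ Hit f a p n) (Classical.decPred _) (Ioc x y)).card : ℕ) : ℝ) -
        ((y : ℝ) - x) * PP f a (zz E x)| ≤ H / Real.log x ^ U := by
  classical
  obtain ⟨N0, hN0⟩ := sys_count (k + lcs f + 1) (M * E + 1) (M * U + 1) (by omega)
  obtain ⟨u0, hu0⟩ := eventually_atTop.mp (ev_loglin (M * U))
  filter_upwards [ev_h M (2 * N0 + 2 * 2 ^ (M * E) + 2 ^ (M * U + 1) + 4 + |u0|), ev_log 1]
    with x hev hL1 a H hH y hy1 hy2
  set L : ℝ := Real.log x with hLdef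
  have hh := hev H hH
  set h : ℝ := Real.log H with hhdef
  have hL0 : 0 < L := by linarith
  have hN0' : (0 : ℝ) ≤ N0 := Nat.cast_nonneg _
  have h2ME : (0 : ℝ) < 2 ^ (M * E) := by positivity
  have h2MU : (0 : ℝ) < 2 ^ (M * U + 1) := by positivity
  have habs : u0 ≤ |u0| := le_abs_self _
  have habs0 : 0 ≤ |u0| := abs_nonneg _
  have hh4 : 4 ≤ h := by linarith
  have hh0 : 0 < h := by linarith
  have hHpos : (0 : ℝ) < H := by
    by_contra hcon
    have h1 : (H : ℝ) = 0 := le_antisymm (not_lt.mp hcon) (Nat.cast_nonneg _)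
    rw [hhdef, h1, Real.log_zero] at hh0
    exact lt_irrefl _ hh0
  have hz1 : 1 ≤ zz E x := by
    unfold zz
    apply Nat.le_floor
    push_cast
    exact one_le_pow₀ hL1
  obtain ⟨N, rfl⟩ : ∃ N, y = x + N := ⟨y - x, by omega⟩
  have hNH : N ≤ H := by omega
  have hyx : (((x + N : ℕ) : ℝ) - x) = N := by push_cast; ring
  rw [hyx]
  have hPB := perB f k hd hl hk a
  have hPP : 0 ≤ PP f a (zz E x) ∧ PP f a (zz E x) ≤ 1 := by
    have h1 : ∀ p ∈ pz (zz E x), 0 ≤ 1 - (nuB (Hit f a) p : ℝ) / p ∧ 1 - (nuB (Hit f a) p : ℝ) / p ≤ 1 := by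
      intro p hp
      have h2 : (nuB (Hit f a) p : ℝ) ≤ p := by exact_mod_cast nuB_le _ p
      have h3 : (0 : ℝ) < p := by exact_mod_cast (mem_pz.1 hp).2.pos
      have h4 : (nuB (Hit f a) p : ℝ) / p ≤ 1 := by rw [div_le_one h3]; exact h2
      have h5 : 0 ≤ (nuB (Hit f a) p : ℝ) / p := by positivity
      constructor <;> linarith
    unfold PP
    exact ⟨prod_nonneg fun p hp => (h1 p hp).1, prod_le_one (fun p hp => (h1 p hp).1) fun p hp => (h1 p hp).2⟩
  have hcard : (@Finset.filter ℕ (fun n => ∀ p ∈ pz (zz E x), ¬ Hit f a p n) (Classical.decPred _) (Ioc x (x + N))).card =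
      (@Finset.filter ℕ (fun j => ∀ p ∈ pz (zz E x), ¬ Sh (Hit f a) x p j) (Classical.decPred _) (Icc 1 N)).card :=
    window_card (fun n => ∀ p ∈ pz (zz E x), ¬ Hit f a p n) x N
  rw [hcard]
  have hPPsh : PP f a (zz E x) = ∏ p ∈ pz (zz E x), (1 - (nuB (Sh (Hit f a) x) p : ℝ) / p) := by
    unfold PP
    refine prod_congr rfl fun p hp => ?_
    rw [nuB_sh hPB x (mem_pz.1 hp).2]
  by_cases hsmall : (N : ℝ) ≤ H / L ^ U
  · have hc : (((@Finset.filter ℕ (fun j => ∀ p ∈ pz (zz E x), ¬ Sh (Hit f a) x p j) (Classical.decPred _) (Icc 1 N)).card : ℕ) : ℝ) ≤ N := by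
      have : (@Finset.filter ℕ (fun j => ∀ p ∈ pz (zz E x), ¬ Sh (Hit f a) x p j) (Classical.decPred _) (Icc 1 N)).card ≤ (Icc 1 N).card :=
        card_le_card fun n hn => (mf'.mp hn).1
      rw [Nat.card_Icc, Nat.add_sub_cancel] at this
      exact_mod_cast this
    have hN : (0 : ℝ) ≤ N := Nat.cast_nonneg _
    have hNP : N * PP f a (zz E x) ≤ N := mul_le_of_le_one_right hN hPP.2
    have hNP0 : 0 ≤ N * PP f a (zz E x) := mul_nonneg hN hPP.1
    rw [abs_le]
    constructor
    · have : (0 : ℝ) ≤ (((@Finset.filter ℕ (fun j => ∀ p ∈ pz (zz E x), ¬ Sh (Hit f a) x p j) (Classical.decPred _) (Icc 1 N)).card : ℕ) : ℝ) := Nat.cast_nonneg _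
      linarith
    · linarith
  · have hbig := not_le.mp hsmall
    have hLh : L ^ U ≤ h ^ (M * U) := by
      rw [pow_mul]
      exact pow_le_pow_left₀ hL0.le hH U
    have hNlow : (H : ℝ) / h ^ (M * U) ≤ N :=
      (div_le_div_of_nonneg_left hHpos.le (by positivity) hLh).trans hbig.le
    have hNpos : (0 : ℝ) < N := lt_of_lt_of_le (by positivity) hNlow
    have hlogN : h / 2 ≤ Real.log N := by
      have h1 := Real.log_le_log (by positivity) hNlow
      rw [Real.log_div hHpos.ne' (by positivity), Real.log_pow] at h1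
      have h2 := hu0 h (by linarith)
      push_cast at h1
      linarith
    have hlNN : Real.log N ≤ N := (Real.log_le_sub_one_of_pos hNpos).trans (by linarith)
    have hNge : N0 ≤ N := by
      have : (N0 : ℝ) ≤ N := by linarith
      exact_mod_cast this
    have hlN0 : 0 < Real.log N := by linarith
    have h3 := hN0 N hNge (zz E x) hz1 (by
      have e1 : (zz E x : ℝ) ≤ L ^ E := Nat.floor_le (by positivity)
      refine e1.trans ?_
      calc L ^ E ≤ (h ^ M) ^ E := pow_le_pow_left₀ hL0.le hH E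
        _ = h ^ (M * E) := by rw [pow_mul]
        _ ≤ (2 * Real.log N) ^ (M * E) := pow_le_pow_left₀ hh0.le (by linarith) _
        _ = 2 ^ (M * E) * Real.log N ^ (M * E) := by rw [mul_pow]
        _ ≤ Real.log N * Real.log N ^ (M * E) := by
            apply mul_le_mul_of_nonneg_right _ (by positivity)
            linarith
        _ = Real.log N ^ (M * E + 1) := by ring) (Sh (Hit f a) x) (perB_sh hPB x)
    have h4 : (N : ℝ) / Real.log N ^ (M * U + 1) ≤ H / L ^ U := by
      have e2 : (h / 2) ^ (M * U + 1) ≤ Real.log N ^ (M * U + 1) := pow_le_pow_left₀ (by positivity) hlogN _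
      have e3 : L ^ U ≤ (h / 2) ^ (M * U + 1) := by
        refine hLh.trans ?_
        rw [div_pow, le_div_iff₀ (by positivity)]
        calc h ^ (M * U) * 2 ^ (M * U + 1) ≤ h ^ (M * U) * h := mul_le_mul_of_nonneg_left (by linarith) (by positivity)
          _ = h ^ (M * U + 1) := by ring
      exact div_le_div₀ hHpos.le (by exact_mod_cast hNH) (by positivity) (e3.trans e2)
    have h5 := h3.trans h4
    rw [← hPPsh] at h5
    refine le_trans (le_of_eq ?_) h5
    congr

end Pool.Agent.W2helper64.SI
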