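import Pool.Agent.W2helper64.SI.Law
import Pool.Agent.W2helper64.SI.Cnt

set_option autoImplicit false
set_option linter.unusedSectionVars false

/-!
The Bateman-Horn formula of the random sieve in short intervals.
-/

namespace Pool.Agent.W2helper64.SI

open Finset Filter Topology Polynomial MeasureTheory Pool.Agent.W2helper64.RS Pool.Agent.W2helper64.RK
open Pool.Agent.W2helper64.BH
open Pool.Agent.H373R2.T7 (pz nuB PerB sys_count nuB_le mem_pz)

/-- the number of the `n` in the window all of whose values lie in the random set -/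
noncomputable def cntW {g : ℕ} (f : Fin g → ℤ[X]) (a : (p : Nat.Primes) → ZMod (p : ℕ)) (x H : ℕ) : ℕ :=
  (@Finset.filter ℕ (AllR f a) (Classical.decPred _) (Ioc x (x + H))).card

theorem ev_goodW {g : ℕ} (f : Fin g → ℤ[X]) (k : ℕ) (hd : ∀ i, 0 < (f i).natDegree)
    (hl : ∀ i, 0 < (f i).leadingCoeff) (hk : ∑ i, (f i).natDegree ≤ k) (hinj : Function.Injective f)
    (E : ℕ) (hE : 1 ≤ E) : ∀ᶠ x : ℕ in atTop, ∀ H : ℕ, H ≤ x → GoodW f (k + 1) E x H := by
  have hki : ∀ i, (f i).natDegree ≤ k := fun i =>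
    (single_le_sum (f := fun i => (f i).natDegree) (fun _ _ => Nat.zero_le _) (Finset.mem_univ i)).trans hk
  obtain ⟨n0, hn0⟩ := ev_sys f k hd hl hki hinj
  filter_upwards [ev_log (16 + 2 * g + (k + 1)), eventually_ge_atTop 4, eventually_ge_atTop n0, ev_invV E g, ev_invV E 2]
    with x hL hx4 hxn0 hV1 hV2 H hHx
  have hg0 : (0 : ℝ) ≤ g := Nat.cast_nonneg _
  have hk0 : (0 : ℝ) ≤ k := Nat.cast_nonneg _
  have hx0 : (0 : ℝ) < x := by exact_mod_cast (by omega : 0 < x)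
  set L : ℝ := Real.log x with hLd
  have hL1 : 1 ≤ L := by linarith
  have hL0 : 0 < L := by linarith
  have hLE : L ≤ L ^ E := le_self_pow₀ hL1 (by omega)
  have hT : TT (k + 1) x = (k + 2) * L := by
    unfold TT
    push_cast
    ring
  have hVz := V_pos (zz E x)
  have hinv : 1 / V (zz E x) ≤ L / 4 := by
    have h1 : (1 / V (zz E x)) ^ 2 ≤ (L / 4) ^ 2 := by
      refine hV2.trans ?_
      have : 16 * L ≤ L * L := mul_le_mul_of_nonneg_right (by linarith) hL0.le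
      nlinarith
    exact le_of_sq_le_sq h1 (by positivity)
  refine ⟨by linarith, ?_, ?_, ?_, hV1, ?_, fun n h1 h2 => ?_, fun n h1 => ?_⟩
  · unfold zz
    apply Nat.le_floor
    push_cast
    linarith
  · unfold zz
    apply Nat.le_floor
    push_cast
    linarith
  · have h1 : L ^ E < (⌊L ^ E⌋₊ : ℝ) + 1 := Nat.lt_floor_add_one _
    have h2 : (zz E x : ℝ) = (⌊L ^ E⌋₊ : ℝ) := rfl
    rw [h2]
    linarith
  · rw [hT]; nlinarith
  · obtain ⟨h3, h4, h5, h6⟩ := hn0 n (by omega)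
    have hxn : (x : ℝ) ≤ n := by exact_mod_cast h1
    have hln : L ≤ Real.log n := Real.log_le_log hx0 hxn
    have hn2x : (n : ℝ) ≤ 2 * x := by exact_mod_cast (by omega : n ≤ 2 * x)
    have hln2 : Real.log n ≤ L + 1 := by
      refine (Real.log_le_log (by linarith) hn2x).trans ?_
      rw [Real.log_mul (by norm_num) hx0.ne']
      have := Real.log_two_lt_d9
      linarith
    have hle : (k + 1) * Real.log n ≤ TT (k + 1) x := by
      rw [hT]
      calc ((k : ℝ) + 1) * Real.log n ≤ (k + 1) * (L + 1) := mul_le_mul_of_nonneg_left hln2 (by linarith)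
        _ ≤ (k + 2) * L := by nlinarith
    refine ⟨fun i => (h3 i).1, fun i => ⟨(h4 i).1, (h4 i).2.2.1.trans hle, ?_⟩, h5, fun i j hij => (h6 i j hij).trans hle⟩
    have h7 : L / 4 ≤ lam f i n := by linarith [(h4 i).2.1]
    have h8 : 1 / V (zz E x) ≤ lam f i n := hinv.trans h7
    rw [div_le_iff₀ hVz] at h8
    linarith
  · obtain ⟨-, h4, -, -⟩ := hn0 n (by omega)
    obtain ⟨-, h5, -, -⟩ := hn0 (n + 1) (by omega)
    unfold hh
    refine prod_le_prod (fun i _ => ?_) fun i _ => ?_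
    · have := (h5 i).1; positivity
    · exact one_div_le_one_div_of_le (by linarith [(h4 i).1]) (h4 i).2.2.2

theorem cntW_eq {g : ℕ} {f : Fin g → ℤ[X]} {k E x H : ℕ} (G : GoodW f k E x H) (a : (p : Nat.Primes) → ZMod (p : ℕ)) :
    (cntW f a x H : ℝ) = NNW f k x H ((PX (TT k x)).restrict a) := by
  classical
  unfold cntW NNW
  congr 2
  ext n
  unfold survW
  rw [mf', Finset.mem_filter]
  refine and_congr_right fun hn => ?_
  rw [mem_Ioc] at hn
  rw [R_iffW G a hn.1 hn.2]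
  exact ⟨fun h p _ => h p, fun h p => h p (Finset.mem_univ _)⟩

/-- the formula in all short windows -/
theorem ae_SI : ∀ᵐ a ∂law, ∀ (g : ℕ) (f : Fin g → ℤ[X]), Function.Injective f →
    (∀ i, 0 < (f i).natDegree) → (∀ i, 0 < (f i).leadingCoeff) →
      ∃ S : ℝ, 0 ≤ S ∧ Tendsto (fun z : ℕ => PP f a z / V z ^ g) atTop (𝓝 S) ∧
        (0 < S ↔ ∀ p : Nat.Primes, nuB (Hit f a) (p : ℕ) < (p : ℕ)) ∧
        ∀ M U : ℕ, ∀ᶠ x : ℕ in atTop, ∀ H : ℕ, H ≤ x → Real.log x ≤ Real.log H ^ M →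
          |(cntW f a x H : ℝ) - S * ∑ n ∈ Ioc x (x + H), hh f n| ≤ H / Real.log x ^ U := by
  rw [ae_all_iff]
  intro g
  rw [ae_all_iff]
  intro f
  by_cases hf : Function.Injective f ∧ (∀ i, 0 < (f i).natDegree) ∧ (∀ i, 0 < (f i).leadingCoeff)
  swap
  · refine Eventually.of_forall fun a h1 h2 h3 => ?_
    exact absurd ⟨h1, h2, h3⟩ hf
  obtain ⟨hinj, hd, hl⟩ := hf
  set k : ℕ := ∑ i, (f i).natDegree with hk
  have h1 : ∀ᵐ a ∂law, ∀ U : ℕ, ∀ᶠ x : ℕ in atTop, ∀ H : ℕ, H ≤ x → Real.log x ^ (4 * (U + 1) + 8) ≤ (H : ℝ) →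
      NNW f (k + 1) x H ((PX (TT (k + 1) x)).restrict a) ≤
        WWW f (k + 1) (4 * (U + 1) + 8) x H (1 / Real.log x ^ (U + 1 + 2)) ((PX (TT (k + 1) x)).restrict a) + H / Real.log x ^ (U + 1) ∧
      WWW f (k + 1) (4 * (U + 1) + 8) x H (-(1 / Real.log x ^ (U + 1 + 2))) ((PX (TT (k + 1) x)).restrict a) - H / Real.log x ^ (U + 1) ≤
        NNW f (k + 1) x H ((PX (TT (k + 1) x)).restrict a) := by
    rw [ae_all_iff]
    intro U
    exact ae_concW f (k + 1) (by omega) hd hl (by omega) (U + 1) (4 * (U + 1) + 8) (by omega)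
  filter_upwards [h1, ae_SS f (k + 1) (by omega) hd hl (by omega) hinj] with a h2 h3 _ _ _
  obtain ⟨S, hS0, hS1, hS2, C, hC, hrate⟩ := h3
  refine ⟨S, hS0, hS1, hS2, fun M U => ?_⟩
  obtain ⟨z0, hz0⟩ := eventually_atTop.mp hrate
  obtain ⟨H0, hH0⟩ := eventually_atTop.mp (ev_pow (M * (4 * (U + 1) + 8)))
  set U1 := U + 1 with hU1
  set E := 4 * U1 + 8 with hE
  filter_upwards [h2 U, ev_goodW f k hd hl le_rfl hinj E (by omega),
    count_phaseW f k hd hl le_rfl E (U1 + 1) M, ev_h M H0, ev_log (2 * z0 + C0 g (k + 1) U1 + C + 16)]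
    with x h5 hG hcount hevh hL H hHx hHM
  have G := hG H hHx
  set L : ℝ := Real.log x with hLd
  have hC0 : 0 ≤ C0 g (k + 1) U1 := by unfold C0; positivity
  have hz00 : (0 : ℝ) ≤ z0 := Nat.cast_nonneg _
  have hL1 : 1 ≤ L := by linarith
  have hL0 : 0 < L := by linarith
  have hh0 := hevh H hHM
  have hHpos : (0 : ℝ) < H := by
    by_contra hcon
    have h1 : (H : ℝ) = 0 := le_antisymm (not_lt.mp hcon) (Nat.cast_nonneg _)
    rw [h1, Real.log_zero] at hHM
    rcases Nat.eq_zero_or_pos M with hM | hM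
    · rw [hM, pow_zero] at hHM
      linarith
    · rw [zero_pow (by omega)] at hHM
      linarith
  have hHge : H0 ≤ H := by
    have h6 := Real.log_le_sub_one_of_pos hHpos
    have : (H0 : ℝ) ≤ H := by linarith
    exact_mod_cast this
  have hLE : L ^ E ≤ (H : ℝ) := by
    calc L ^ E ≤ (Real.log H ^ M) ^ E := pow_le_pow_left₀ hL0.le hHM E
      _ = Real.log H ^ (M * E) := by rw [pow_mul]
      _ ≤ H := hH0 H hHge
  obtain ⟨c1, c2⟩ := h5 H hHx hLE
  have hcl := NN_closeW G (by omega : U1 + 1 ≤ E) a c1 c2 (fun y hy1 hy2 => by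
    refine (hcount a H hHM y hy1 hy2).trans ?_
    have h6 : 0 ≤ (H : ℝ) / L ^ (U1 + 1) := by positivity
    have h7 : (1 : ℝ) ≤ 2 ^ (U1 + 1 + 1) := one_le_pow₀ (by norm_num)
    nlinarith)
  rw [← cntW_eq G a] at hcl
  -- the rate
  have hzlow := G.zlow
  have hzz : z0 ≤ zz E x := by
    have h6 : L ≤ L ^ E := le_self_pow₀ hL1 (by omega)
    have : (z0 : ℝ) ≤ zz E x := by linarith
    exact_mod_cast this
  have hr := hz0 (zz E x) hzz
  have hzpos : (0 : ℝ) < zz E x := by exact_mod_cast G.z1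
  have hz4 : ((zz E x : ℕ) : ℝ) ^ (-(1 / 4) : ℝ) ≤ 1 / L ^ U1 := by
    have h6 : (L ^ U1) ^ 4 ≤ (zz E x : ℝ) := by
      refine le_trans ?_ hzlow
      have h7 : L ^ E = (L ^ U1) ^ 4 * L ^ 8 := by rw [hE]; ring
      rw [h7]
      have h8 : (2 : ℝ) ≤ L ^ 8 := by
        have h9 : L ≤ L ^ 8 := le_self_pow₀ hL1 (by norm_num)
        linarith
      have h10 : 0 < (L ^ U1) ^ 4 := by positivity
      nlinarith
    have h7 : ((zz E x : ℕ) : ℝ) ^ (-(1 / 4) : ℝ) ≤ ((L ^ U1) ^ 4 : ℝ) ^ (-(1 / 4) : ℝ) :=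
      Real.rpow_le_rpow_of_nonpos (by positivity) h6 (by norm_num)
    refine h7.trans (le_of_eq ?_)
    rw [← Real.rpow_natCast (L ^ U1) 4, ← Real.rpow_mul (by positivity)]
    norm_num
    rw [Real.rpow_neg_one]
  have hHS : 0 ≤ ∑ n ∈ Ioc x (x + H), hh f n ∧ ∑ n ∈ Ioc x (x + H), hh f n ≤ H := by
    have h6 : ∀ n ∈ Ioc x (x + H), 0 ≤ hh f n ∧ hh f n ≤ 1 := by
      intro n hn
      rw [mem_Ioc] at hn
      have h := hhW_facts G n hn.1.le
      rw [if_pos hn.2] at h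
      exact ⟨h.1, h.2.1⟩
    refine ⟨sum_nonneg fun n hn => (h6 n hn).1, (sum_le_sum fun n hn => (h6 n hn).2).trans ?_⟩
    rw [sum_const, nsmul_eq_mul, mul_one, Nat.card_Ioc]
    exact_mod_cast (by omega : x + H - x ≤ H)
  set HS := ∑ n ∈ Ioc x (x + H), hh f n with hHSd
  set Sz := PP f a (zz E x) / V (zz E x) ^ g with hSz
  have t1 : |Sz * HS - S * HS| ≤ C * (H / L ^ U1) := by
    rw [← sub_mul, abs_mul, abs_of_nonneg hHS.1]
    calc |Sz - S| * HS ≤ (C * (1 / L ^ U1)) * H :=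
          mul_le_mul (hr.trans (mul_le_mul_of_nonneg_left hz4 hC)) hHS.2 hHS.1 (by positivity)
      _ = C * (H / L ^ U1) := by ring
  have t2 : |(cntW f a x H : ℝ) - S * HS| ≤ C0 g (k + 1) U1 * (H / L ^ U1) + C * (H / L ^ U1) := by
    have e1 : (cntW f a x H : ℝ) - S * HS = ((cntW f a x H : ℝ) - Sz * HS) + (Sz * HS - S * HS) := by ring
    rw [e1]
    exact (abs_add_le _ _).trans (add_le_add hcl t1)
  refine t2.trans ?_
  rw [← add_mul, ← mul_div_assoc, div_le_div_iff₀ (by positivity) (by positivity), hU1, pow_succ]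
  calc (C0 g (k + 1) (U + 1) + C) * H * L ^ U = (C0 g (k + 1) (U + 1) + C) * (H * L ^ U) := by ring
    _ ≤ L * (H * L ^ U) := mul_le_mul_of_nonneg_right (by linarith) (by positivity)
    _ = H * (L ^ U * L) := by ring

end Pool.Agent.W2helper64.SI
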