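import Pool.Agent.W2helper64.RK.MainP
import Pool.Agent.W2helper64.BH.Quad
import Pool.Agent.W2helper64.SI.Fin
import Mathlib.NumberTheory.PrimeCounting
import Mathlib.Data.Nat.ChineseRemainder

set_option autoImplicit false

/-!
Exact patterns in the random set: every admissible set `H` of shifts in `[0, L]` occurs as the exact pattern
of the random set in `[n, n + L]` in every interval of polylogarithmic length.
-/

namespace Pool.Agent.W2helper64.SI

open Finset Filter Topology Polynomial MeasureTheory Pool.Agent.W2helper64.RS Pool.Agent.W2helper64.RK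

instance instFactNatPrimes (p : Nat.Primes) : Fact (p : ℕ).Prime := ⟨p.2⟩

/-- the pattern `Q X + b + h`, `h ∈ H` -/
noncomputable def sh (Q b : ℕ) (H : Finset ℕ) : Fin H.card → ℤ[X] :=
  fun i => C (Q : ℤ) * X + C (((b + H.orderEmbOfFin rfl i : ℕ) : ℤ))

theorem sh_eval (Q b : ℕ) (H : Finset ℕ) (i : Fin H.card) (z : ℤ) :
    (sh Q b H i).eval z = Q * z + ((b + H.orderEmbOfFin rfl i : ℕ) : ℤ) := by
  simp [sh]

theorem sh_deg {Q : ℕ} (hQ : 0 < Q) (b : ℕ) (H : Finset ℕ) (i : Fin H.card) :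
    (sh Q b H i).natDegree = 1 ∧ 0 < (sh Q b H i).leadingCoeff := by
  have h : (Q : ℤ) ≠ 0 := by exact_mod_cast hQ.ne'
  unfold sh
  refine ⟨natDegree_linear h, ?_⟩
  rw [leadingCoeff_linear h]
  exact_mod_cast hQ

theorem sh_inj (Q b : ℕ) (H : Finset ℕ) : Function.Injective (sh Q b H) := by
  intro i j h
  have h1 : (sh Q b H i).eval 0 = (sh Q b H j).eval 0 := by rw [h]
  rw [sh_eval, sh_eval] at h1
  apply (H.orderEmbOfFin rfl).injective
  have h2 : ((b + H.orderEmbOfFin rfl i : ℕ) : ℤ) = ((b + H.orderEmbOfFin rfl j : ℕ) : ℤ) := by linarith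
  have h3 : b + H.orderEmbOfFin rfl i = b + H.orderEmbOfFin rfl j := by exact_mod_cast h2
  omega

theorem sh_idx {H : Finset ℕ} {h : ℕ} (hh : h ∈ H) : ∃ i, H.orderEmbOfFin rfl i = h := by
  have hmem : h ∈ Set.range (H.orderEmbOfFin rfl) := by
    rw [Finset.range_orderEmbOfFin]
    exact hh
  exact hmem

/-- `H` does not contain all residue classes modulo any prime -/
def Adm (H : Finset ℕ) : Prop := ∀ p : ℕ, p.Prime → ∃ z : ℕ, ∀ h ∈ H, ¬ h ≡ z [MOD p]

/-- the auxiliary primes -/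
noncomputable def qq (L j : ℕ) : ℕ := Nat.nth Nat.Prime (L + j)

theorem qq_prime (L j : ℕ) : (qq L j).Prime := Nat.prime_nth_prime _

theorem qq_gt (L j : ℕ) : L < qq L j := by
  have := Nat.add_two_le_nth_prime (L + j)
  unfold qq
  omega

theorem qq_inj (L : ℕ) : Function.Injective (qq L) := by
  intro i j h
  unfold qq at h
  have := Nat.nth_injective Nat.infinite_setOfPred_prime h
  omega

theorem V_pos' (y : ℕ) : 0 < V y := by
  unfold V
  refine Finset.prod_pos fun p hp => ?_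
  have h := (mf'.mp hp).2.one_lt
  have h1 : (1 : ℝ) < p := by exact_mod_cast h
  have : 1 / (p : ℝ) < 1 := by
    rw [div_lt_one (by linarith)]
    exact h1
  linarith

theorem exact_exists (k : ℕ) : ∃ C : ℝ, ∀ᵐ a ∂law, ∀ (L : ℕ) (H : Finset ℕ), H ⊆ range (L + 1) →
    H.card ≤ k → Adm H → ∀ᶠ x : ℕ in atTop, ∃ n : ℕ, x < n ∧ (n : ℝ) ≤ x + Real.log x ^ C ∧
      ∀ j ≤ L, (n + j ∈ R a ↔ j ∈ H) := by
  classical
  obtain ⟨C, hC2, hC⟩ := ae_poly (k + 1) (by omega)
  refine ⟨C + 1, ?_⟩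
  filter_upwards [hC] with a ha L H hHL hk hadm
  set J : Finset ℕ := (range (L + 1)) \ H with hJ
  set r : ℕ → ℕ := fun j => (a ⟨qq L j, qq_prime L j⟩ - ((j : ℕ) : ZMod (qq L j))).val with hr
  have hcop : Set.Pairwise (↑J : Set ℕ) (Function.onFun Nat.Coprime (qq L)) := by
    intro i _ j _ hij
    exact (Nat.coprime_primes (qq_prime L i) (qq_prime L j)).mpr fun h => hij (qq_inj L h)
  obtain ⟨b, hb⟩ := Nat.chineseRemainderOfFinset r (qq L) J (fun i _ => (qq_prime L i).ne_zero) hcop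
  have hb' : ∀ j ∈ J, ((b : ℕ) : ZMod (qq L j)) = a ⟨qq L j, qq_prime L j⟩ - ((j : ℕ) : ZMod (qq L j)) := by
    intro j hj
    have h1 := (ZMod.natCast_eq_natCast_iff _ _ _).mpr (hb j hj)
    have : NeZero (qq L j) := ⟨(qq_prime L j).ne_zero⟩
    rw [h1, hr]
    simp only
    rw [ZMod.natCast_val, ZMod.cast_id', id]
  set Q : ℕ := ∏ j ∈ J, qq L j with hQ
  have hQ0 : 0 < Q := Finset.prod_pos fun j _ => (qq_prime L j).pos
  have hfree : RK.Free a (sh Q b H) := by
    intro p
    by_cases hp : ∃ j ∈ J, qq L j = (p : ℕ)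
    · obtain ⟨j, hj, hjp⟩ := hp
      have hpe : p = ⟨qq L j, qq_prime L j⟩ := Subtype.ext hjp.symm
      subst hpe
      refine ⟨0, fun i h => ?_⟩
      rw [sh_eval] at h
      have hmem := H.orderEmbOfFin_mem rfl i
      set h0 : ℕ := H.orderEmbOfFin rfl i with hh0
      push_cast at h
      rw [hb' j hj] at h
      have h1 : ((h0 : ℕ) : ZMod (qq L j)) = ((j : ℕ) : ZMod (qq L j)) := by linear_combination h
      rw [ZMod.natCast_eq_natCast_iff] at h1
      have h2 : h0 % (qq L j) = j % (qq L j) := h1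
      have h3 := Finset.mem_range.mp (hHL hmem)
      have h4 := Finset.mem_sdiff.mp hj
      have h5 := Finset.mem_range.mp h4.1
      have h6 := qq_gt L j
      rw [Nat.mod_eq_of_lt (by omega), Nat.mod_eq_of_lt (by omega)] at h2
      rw [h2] at hmem
      exact h4.2 hmem
    · push Not at hp
      obtain ⟨c, hc⟩ := hadm p p.2
      have hQp : ((Q : ℕ) : ZMod (p : ℕ)) ≠ 0 := by
        rw [Ne, ZMod.natCast_eq_zero_iff, hQ, (Nat.Prime.prime p.2).dvd_finsetProd_iff]
        rintro ⟨j, hj, hd⟩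
        exact hp j hj ((Nat.prime_dvd_prime_iff_eq p.2 (qq_prime L j)).mp hd).symm
      have : NeZero (p : ℕ) := ⟨p.2.ne_zero⟩
      refine ⟨(((a p - (c : ZMod (p : ℕ)) - (b : ZMod (p : ℕ))) * ((Q : ℕ) : ZMod (p : ℕ))⁻¹ : ZMod (p : ℕ)).val : ℤ),
        fun i h => ?_⟩
      rw [sh_eval] at h
      have hmem := H.orderEmbOfFin_mem rfl i
      set h0 : ℕ := H.orderEmbOfFin rfl i with hh0
      push_cast at h
      rw [ZMod.natCast_val, ZMod.cast_id', id] at h
      have h1 : ((h0 : ℕ) : ZMod (p : ℕ)) = ((c : ℕ) : ZMod (p : ℕ)) := by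
        have e1 : ((Q : ℕ) : ZMod (p : ℕ)) * ((a p - (c : ZMod (p : ℕ)) - (b : ZMod (p : ℕ))) * ((Q : ℕ) : ZMod (p : ℕ))⁻¹) =
            a p - (c : ZMod (p : ℕ)) - (b : ZMod (p : ℕ)) := by
          rw [mul_comm, mul_assoc, inv_mul_cancel₀ hQp, mul_one]
        rw [e1] at h
        linear_combination h
      rw [ZMod.natCast_eq_natCast_iff] at h1
      exact hc h0 hmem h1
  have h1 := ha H.card (sh Q b H) (fun i => by rw [(sh_deg hQ0 b H i).1]; norm_num)
    (fun i => (sh_deg hQ0 b H i).2) (by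
      simp only [(sh_deg hQ0 b H _).1]
      simp
      omega) hfree
  have h2 : Tendsto (fun x : ℕ => x / Q) atTop atTop := Nat.tendsto_div_const_atTop hQ0.ne'
  have hlog : Tendsto (fun x : ℕ => Real.log (x : ℝ)) atTop atTop :=
    Real.tendsto_log_atTop.comp tendsto_natCast_atTop_atTop
  have h3 : ∀ᶠ x : ℕ in atTop, ∀ j ∈ J, 1 ≤ V (qq L j) * Real.log x := by
    rw [Filter.eventually_all_finset]
    intro j _
    filter_upwards [hlog.eventually_ge_atTop (1 / V (qq L j))] with x hx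
    rw [div_le_iff₀ (V_pos' _)] at hx
    linarith
  filter_upwards [h2.eventually h1, h3, hlog.eventually_ge_atTop (Q + b + 1 : ℝ), eventually_ge_atTop Q,
    eventually_ge_atTop 1] with x hx hxJ hxl hxQ hx1
  obtain ⟨m, hm1, hm2, hm3⟩ := hx
  have hx1' : (1 : ℝ) ≤ x := by exact_mod_cast hx1
  have hQr : (1 : ℝ) ≤ Q := by exact_mod_cast hQ0
  have hb0 : (0 : ℝ) ≤ b := Nat.cast_nonneg _
  have hdiv : x < Q * (x / Q + 1) := Nat.lt_mul_div_succ x hQ0
  have hdiv2 : Q * (x / Q) ≤ x := Nat.mul_div_le x Q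
  have hn1 : x < Q * m + b := by
    have : Q * (x / Q + 1) ≤ Q * m := Nat.mul_le_mul_left Q hm1
    omega
  refine ⟨Q * m + b, hn1, ?_, ?_⟩
  · have e1 : ((x / Q : ℕ) : ℝ) * Q ≤ x := by
      have : ((Q * (x / Q) : ℕ) : ℝ) ≤ x := by exact_mod_cast hdiv2
      push_cast at this ⊢
      linarith
    have hxQ1 : 1 ≤ x / Q := (Nat.one_le_div_iff hQ0).mpr hxQ
    have e2 : Real.log ((x / Q : ℕ) : ℝ) ≤ Real.log x := by
      apply Real.log_le_log
      · exact_mod_cast hxQ1
      · have : ((x / Q : ℕ) : ℝ) ≤ x := by exact_mod_cast Nat.div_le_self x Q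
        exact this
    have e3 : 0 ≤ Real.log ((x / Q : ℕ) : ℝ) := Real.log_nonneg (by exact_mod_cast hxQ1)
    have e4 : Real.log ((x / Q : ℕ) : ℝ) ^ C ≤ Real.log x ^ C := Real.rpow_le_rpow e3 e2 (by linarith)
    have hl1 : 1 ≤ Real.log x := by linarith
    have e5 : 1 ≤ Real.log x ^ C := Real.one_le_rpow hl1 (by linarith)
    have e6 : Real.log x ^ (C + 1) = Real.log x ^ C * Real.log x := by
      rw [Real.rpow_add (by linarith), Real.rpow_one]
    rw [e6]
    have e7 : (m : ℝ) ≤ ((x / Q : ℕ) : ℝ) + Real.log x ^ C := hm2.trans (by linarith)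
    have e8 : (Q : ℝ) * m ≤ x + Q * Real.log x ^ C := by
      calc (Q : ℝ) * m ≤ Q * (((x / Q : ℕ) : ℝ) + Real.log x ^ C) := mul_le_mul_of_nonneg_left e7 (by linarith)
        _ ≤ _ := by linarith
    have e9 : (b : ℝ) ≤ b * Real.log x ^ C := le_mul_of_one_le_right hb0 e5
    have e10 : (Q : ℝ) * Real.log x ^ C + b * Real.log x ^ C ≤ Real.log x ^ C * Real.log x := by
      have : (Real.log x ^ C) * (Q + b) ≤ Real.log x ^ C * Real.log x :=
        mul_le_mul_of_nonneg_left (by linarith) (by linarith)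
      linarith
    push_cast
    linarith
  · intro j hj
    constructor
    · intro hjR
      by_contra hjH
      have hjJ : j ∈ J := Finset.mem_sdiff.mpr ⟨Finset.mem_range.mpr (by omega), hjH⟩
      have e1 := hjR.2 ⟨qq L j, qq_prime L j⟩
      refine e1 ?_ ?_
      · refine (hxJ j hjJ).trans ?_
        apply mul_le_mul_of_nonneg_left _ (V_pos' _).le
        apply Real.log_le_log (by linarith)
        exact_mod_cast (by omega : x ≤ Q * m + b + j)
      · have hQz : ((Q : ℕ) : ZMod (qq L j)) = 0 := by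
          rw [ZMod.natCast_eq_zero_iff]
          exact Finset.dvd_prod_of_mem _ hjJ
        push_cast
        rw [hQz, hb' j hjJ]
        ring
    · intro hjH
      obtain ⟨i, hi⟩ := sh_idx hjH
      obtain ⟨s, hs, hse⟩ := hm3 i
      rw [sh_eval, hi] at hse
      have : s = Q * m + b + j := by
        have h5 : (s : ℤ) = ((Q * m + b + j : ℕ) : ℤ) := by
          rw [hse]
          push_cast
          ring
        exact_mod_cast h5
      rwa [this] at hs

end Pool.Agent.W2helper64.SI
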