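import Pool.Agent.W2helper64.SI.Exact

set_option autoImplicit false

/-!
The number of the occurrences of an exact pattern in short intervals.
-/

namespace Pool.Agent.W2helper64.SI

open Finset Filter Topology Polynomial MeasureTheory Pool.Agent.W2helper64.RS Pool.Agent.W2helper64.RK
open Pool.Agent.H373R2.T7 (pz nuB)

/-- the number of the classes modulo `p` which meet `H` -/
def nuH (H : Finset ℕ) (p : ℕ) : ℕ := (H.image (· % p)).card

/-- the partial products of the singular series of the pattern `H` -/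
noncomputable def sing (H : Finset ℕ) (z : ℕ) : ℝ :=
  ∏ p ∈ (Icc 1 z).filter Nat.Prime, (1 - (nuH H p : ℝ) / p) / (1 - 1 / (p : ℝ)) ^ H.card

/-- the main term of the pattern `H` -/
noncomputable def mt (H : Finset ℕ) (x Y : ℕ) : ℝ :=
  ∑ n ∈ Ioc x (x + Y), ∏ h ∈ H, 1 / Real.log ((n + h : ℕ) : ℝ)

open Classical in
/-- the number of the occurrences of the pattern `H` -/
noncomputable def occ (a : (p : Nat.Primes) → ZMod (p : ℕ)) (H : Finset ℕ) (x Y : ℕ) : ℕ :=
  ((Ioc x (x + Y)).filter fun n : ℕ => ∀ h ∈ H, n + h ∈ R a).card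

open Classical in
/-- the number of the exact occurrences of the pattern `H` in `[0, L]` -/
noncomputable def exc (a : (p : Nat.Primes) → ZMod (p : ℕ)) (L : ℕ) (H : Finset ℕ) (x Y : ℕ) : ℕ :=
  ((Ioc x (x + Y)).filter fun n : ℕ => ∀ j ≤ L, (n + j ∈ R a ↔ j ∈ H)).card

theorem nuR_sh (H : Finset ℕ) (p : ℕ) (hp : p.Prime) (c : ZMod p) :
    BH.nuR (sh 1 0 H) p c = nuH H p := by
  classical
  have : NeZero p := ⟨hp.ne_zero⟩
  unfold BH.nuR nuH
  have h1 : (range p).filter (fun m => c ∈ BH.Im (sh 1 0 H) p m) =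
      (H.image (fun h : ℕ => ((h : ℕ) : ZMod p))).image fun s : ZMod p => (c - s).val := by
    ext m
    rw [mf', Finset.mem_range, BH.mem_Im, Finset.mem_image]
    constructor
    · rintro ⟨hm, i, hi⟩
      rw [sh_eval] at hi
      refine ⟨((H.orderEmbOfFin rfl i : ℕ) : ZMod p), Finset.mem_image.mpr ⟨_, H.orderEmbOfFin_mem rfl i, rfl⟩, ?_⟩
      have e1 : c - ((H.orderEmbOfFin rfl i : ℕ) : ZMod p) = ((m : ℕ) : ZMod p) := by
        rw [← hi]
        push_cast
        ring
      rw [e1, ZMod.val_natCast_of_lt hm]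
    · rintro ⟨s, hs, hsm⟩
      obtain ⟨h, hh, rfl⟩ := Finset.mem_image.mp hs
      obtain ⟨i, hi⟩ := sh_idx hh
      refine ⟨by rw [← hsm]; exact ZMod.val_lt _, i, ?_⟩
      rw [sh_eval, hi, ← hsm]
      push_cast
      rw [ZMod.natCast_val, ZMod.cast_id', id]
      ring
  have h2 : ((range p).filter fun m => c ∈ BH.Im (sh 1 0 H) p m).card =
      (H.image (fun h : ℕ => ((h : ℕ) : ZMod p))).card := by
    rw [h1]
    refine Finset.card_image_of_injective _ fun s t hst => ?_
    have := ZMod.val_injective p hst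
    linear_combination -this
  have h3 : (H.image (fun h : ℕ => ((h : ℕ) : ZMod p))).card = (H.image (· % p)).card := by
    have e1 : H.image (· % p) = (H.image (fun h : ℕ => ((h : ℕ) : ZMod p))).image ZMod.val := by
      rw [Finset.image_image]
      refine Finset.image_congr fun h _ => ?_
      simp [ZMod.val_natCast]
    rw [e1, Finset.card_image_of_injective _ (ZMod.val_injective p)]
  rw [← h3, ← h2]

theorem sing_eq (H : Finset ℕ) (a : (p : Nat.Primes) → ZMod (p : ℕ)) (z : ℕ) :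
    BH.PP (sh 1 0 H) a z / V z ^ H.card = sing H z := by
  rw [BH.PP_div, ← BH.prod_Pr]
  unfold sing
  refine Finset.prod_congr rfl fun p hp => ?_
  have hpp : p.Prime := (mf'.mp hp).2
  unfold BH.FF
  have h1 := BH.nuB_eq (sh 1 0 H) a ⟨p, hpp⟩
  have h2 : nuB (BH.Hit (sh 1 0 H) a) p = nuH H p := by
    refine Eq.trans h1 ?_
    exact nuR_sh H p hpp _
  rw [h2]

theorem occ_SI : ∀ᵐ a ∂law, ∀ H : Finset ℕ, ∃ S : ℝ, 0 ≤ S ∧ Tendsto (sing H) atTop (𝓝 S) ∧ (Adm H → 0 < S) ∧
    ∀ M U : ℕ, ∀ᶠ x : ℕ in atTop, ∀ Y : ℕ, Y ≤ x → Real.log x ≤ Real.log Y ^ M →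
      |(occ a H x Y : ℝ) - S * mt H x Y| ≤ Y / Real.log x ^ U := by
  filter_upwards [ae_SI] with a ha H
  obtain ⟨S, h1, h2, h3, h4⟩ := ha H.card (sh 1 0 H) (sh_inj 1 0 H) (fun i => by
    rw [(sh_deg one_pos 0 H i).1]; norm_num) (fun i => (sh_deg one_pos 0 H i).2)
  have e1 : ∀ x Y : ℕ, cntW (sh 1 0 H) a x Y = occ a H x Y := by
    intro x Y
    unfold cntW occ
    congr 1
    ext n
    rw [mf', mf']
    refine and_congr_right fun _ => ?_
    unfold BH.AllR
    constructor
    · intro h s hs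
      obtain ⟨i, hi⟩ := sh_idx hs
      obtain ⟨r, hr, hre⟩ := h i
      rw [sh_eval, hi] at hre
      have : r = n + s := by
        have h5 : (r : ℤ) = ((n + s : ℕ) : ℤ) := by
          rw [hre]
          push_cast
          ring
        exact_mod_cast h5
      rwa [this] at hr
    · intro h i
      refine ⟨n + H.orderEmbOfFin rfl i, h _ (H.orderEmbOfFin_mem rfl i), ?_⟩
      rw [sh_eval]
      push_cast
      ring
  have e2 : ∀ x Y : ℕ, ∑ n ∈ Ioc x (x + Y), BH.hh (sh 1 0 H) n = mt H x Y := by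
    intro x Y
    unfold mt
    refine Finset.sum_congr rfl fun n _ => ?_
    unfold BH.hh BH.lam
    have e3 : ∏ h ∈ H, 1 / Real.log ((n + h : ℕ) : ℝ) =
        ∏ i : Fin H.card, 1 / Real.log ((n + H.orderEmbOfFin rfl i : ℕ) : ℝ) := by
      have hmap : H = Finset.univ.map (H.orderEmbOfFin rfl).toEmbedding := by
        ext y
        rw [Finset.mem_map]
        constructor
        · intro hy
          obtain ⟨i, hi⟩ := sh_idx hy
          exact ⟨i, Finset.mem_univ _, hi⟩
        · rintro ⟨i, -, hi⟩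
          rw [← hi]
          exact H.orderEmbOfFin_mem rfl i
      conv_lhs => rw [hmap]
      rw [Finset.prod_map]
      rfl
    rw [e3]
    refine Finset.prod_congr rfl fun i _ => ?_
    rw [sh_eval]
    congr 2
    push_cast
    ring
  refine ⟨S, h1, h2.congr fun z => sing_eq H a z, ?_, fun M U => ?_⟩
  · intro hadm
    rw [h3]
    intro p
    rw [BH.nuB_eq, nuR_sh H p p.2]
    obtain ⟨z, hz⟩ := hadm p p.2
    unfold nuH
    refine lt_of_lt_of_eq (Finset.card_lt_card (t := range (p : ℕ)) ⟨fun y hy => ?_, fun hsub => ?_⟩) (Finset.card_range _)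
    · obtain ⟨h, _, rfl⟩ := Finset.mem_image.mp hy
      exact Finset.mem_range.mpr (Nat.mod_lt _ p.2.pos)
    · have := hsub (Finset.mem_range.mpr (Nat.mod_lt z p.2.pos))
      obtain ⟨h, hh, he⟩ := Finset.mem_image.mp this
      exact hz h hh he
  · filter_upwards [h4 M U] with x hx Y hY1 hY2
    have := hx Y hY1 hY2
    rwa [e1, e2] at this

theorem mt_nonneg (H : Finset ℕ) (x Y : ℕ) : 0 ≤ mt H x Y :=
  Finset.sum_nonneg fun n _ => Finset.prod_nonneg fun h _ =>
    div_nonneg zero_le_one (Real.log_natCast_nonneg _)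

theorem mt_le (H : Finset ℕ) (x Y : ℕ) (hx : 3 ≤ x) : mt H x Y ≤ Y / Real.log x ^ H.card := by
  have hx3 : (3 : ℝ) ≤ x := by exact_mod_cast hx
  have hl : 0 < Real.log x := Real.log_pos (by linarith)
  unfold mt
  have h1 : ∀ n ∈ Ioc x (x + Y), ∏ h ∈ H, 1 / Real.log ((n + h : ℕ) : ℝ) ≤ 1 / Real.log x ^ H.card := by
    intro n hn
    rw [mem_Ioc] at hn
    have h2 : ∏ h ∈ H, 1 / Real.log ((n + h : ℕ) : ℝ) ≤ ∏ _h ∈ H, 1 / Real.log x := by
      refine Finset.prod_le_prod (fun h _ => div_nonneg zero_le_one (Real.log_natCast_nonneg _)) fun h _ => ?_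
      apply one_div_le_one_div_of_le hl
      apply Real.log_le_log (by linarith)
      exact_mod_cast (by omega : x ≤ n + h)
    refine h2.trans ?_
    rw [Finset.prod_const, one_div_pow]
  refine (Finset.sum_le_card_nsmul _ _ _ h1).trans ?_
  rw [Nat.card_Ioc, nsmul_eq_mul]
  have : ((x + Y - x : ℕ) : ℝ) = Y := by
    congr 1
    omega
  rw [this, mul_one_div]

theorem exact_count : ∀ᵐ a ∂law, ∀ (L : ℕ) (H : Finset ℕ), H ⊆ range (L + 1) → Adm H →
    ∃ S : ℝ, 0 < S ∧ Tendsto (sing H) atTop (𝓝 S) ∧ ∃ D : ℝ, ∀ M : ℕ, ∀ᶠ x : ℕ in atTop, ∀ Y : ℕ, Y ≤ x →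
      Real.log x ≤ Real.log Y ^ M →
        |(exc a L H x Y : ℝ) - S * mt H x Y| ≤ D * (Y / Real.log x ^ (H.card + 1)) := by
  classical
  filter_upwards [occ_SI] with a ha L H hHL hadm
  choose S hS0 hS1 hS2 hS3 using ha
  refine ⟨S H, hS2 H hadm, hS1 H, ?_⟩
  set J : Finset ℕ := (range (L + 1)) \ H with hJ
  refine ⟨1 + ∑ j ∈ J, (S (insert j H) + 1), fun M => ?_⟩
  have h1 : ∀ᶠ x : ℕ in atTop, ∀ j ∈ J, ∀ Y : ℕ, Y ≤ x → Real.log x ≤ Real.log Y ^ M →
      |(occ a (insert j H) x Y : ℝ) - S (insert j H) * mt (insert j H) x Y| ≤ Y / Real.log x ^ (H.card + 1) := by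
    rw [Filter.eventually_all_finset]
    intro j _
    exact hS3 (insert j H) M (H.card + 1)
  filter_upwards [h1, hS3 H M (H.card + 1), eventually_ge_atTop 3] with x hx1 hx2 hx3 Y hY1 hY2
  set W : ℝ := Y / Real.log x ^ (H.card + 1) with hW
  have hA := hx2 Y hY1 hY2
  have hB : ∀ j ∈ J, (occ a (insert j H) x Y : ℝ) ≤ (S (insert j H) + 1) * W := by
    intro j hj
    have e1 := hx1 j hj Y hY1 hY2
    have hcard : (insert j H).card = H.card + 1 := Finset.card_insert_of_notMem (Finset.mem_sdiff.mp hj).2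
    have e2 := mt_le (insert j H) x Y hx3
    rw [hcard] at e2
    have e3 := mul_le_mul_of_nonneg_left e2 (hS0 (insert j H))
    have e4 := (abs_le.mp e1).2
    have e5 : S (insert j H) * (↑Y / Real.log x ^ (H.card + 1)) = S (insert j H) * W := rfl
    rw [e5] at e3
    linarith
  -- the comparison of the sets
  have hsub1 : exc a L H x Y ≤ occ a H x Y := by
    unfold exc occ
    apply Finset.card_le_card
    intro n hn
    rw [mf'] at hn ⊢
    refine ⟨hn.1, fun h hh => ?_⟩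
    have := Finset.mem_range.mp (hHL hh)
    exact (hn.2 h (by omega)).mpr hh
  have hsub2 : occ a H x Y ≤ exc a L H x Y + ∑ j ∈ J, occ a (insert j H) x Y := by
    have e1 : (Ioc x (x + Y)).filter (fun n : ℕ => ∀ h ∈ H, n + h ∈ R a) ⊆
        (Ioc x (x + Y)).filter (fun n : ℕ => ∀ j ≤ L, (n + j ∈ R a ↔ j ∈ H)) ∪
          J.biUnion fun j => (Ioc x (x + Y)).filter fun n : ℕ => ∀ h ∈ insert j H, n + h ∈ R a := by
      intro n hn
      rw [mf'] at hn
      rw [Finset.mem_union]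
      by_cases hall : ∀ j ≤ L, (n + j ∈ R a ↔ j ∈ H)
      · exact Or.inl (mf'.mpr ⟨hn.1, hall⟩)
      · right
        push Not at hall
        obtain ⟨j, hjL, hj⟩ := hall
        rcases hj with ⟨hj1, hj2⟩ | ⟨hj1, hj2⟩
        · refine Finset.mem_biUnion.mpr ⟨j, Finset.mem_sdiff.mpr ⟨Finset.mem_range.mpr (by omega), hj2⟩, ?_⟩
          rw [mf']
          refine ⟨hn.1, fun h hh => ?_⟩
          rcases Finset.mem_insert.mp hh with rfl | hh'
          · exact hj1
          · exact hn.2 h hh'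
        · exact absurd (hn.2 j hj2) hj1
    refine (Finset.card_le_card e1).trans ?_
    refine (Finset.card_union_le _ _).trans ?_
    exact Nat.add_le_add_left Finset.card_biUnion_le _
  have hs1 : (exc a L H x Y : ℝ) ≤ occ a H x Y := by exact_mod_cast hsub1
  have hs2 : (occ a H x Y : ℝ) ≤ exc a L H x Y + ∑ j ∈ J, (occ a (insert j H) x Y : ℝ) := by
    exact_mod_cast hsub2
  have hs3 : ∑ j ∈ J, (occ a (insert j H) x Y : ℝ) ≤ (∑ j ∈ J, (S (insert j H) + 1)) * W := by
    rw [Finset.sum_mul]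
    exact Finset.sum_le_sum hB
  have hWA : |(occ a H x Y : ℝ) - S H * mt H x Y| ≤ W := hA
  have hW0 : 0 ≤ W := (abs_nonneg _).trans hWA
  have hsum0 : 0 ≤ (∑ j ∈ J, (S (insert j H) + 1)) * W :=
    mul_nonneg (Finset.sum_nonneg fun j _ => by linarith [hS0 (insert j H)]) hW0
  rw [abs_le] at hWA ⊢
  rw [add_mul, one_mul]
  constructor
  · linarith [hWA.1]
  · linarith [hWA.2]

end Pool.Agent.W2helper64.SI
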