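import Pool.Agent.W2helper64.BH.Final

set_option autoImplicit false
set_option linter.unusedSectionVars false

/-!
The asymptotic formula of the random sieve in short intervals: the second phase.
-/

namespace Pool.Agent.W2helper64.SI

open Finset Filter Topology Polynomial MeasureTheory Pool.Agent.W2helper64.RS Pool.Agent.W2helper64.RK
open Pool.Agent.W2helper64.BH
open Pool.Agent.H373R2.T7 (pz nuB PerB sys_count nuB_le mem_pz)

/-- the predicted number of survivors in the window -/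
noncomputable def WWW {g : ℕ} (f : Fin g → ℤ[X]) (k E x H : ℕ) (u : ℝ)
    (a : (p : {p // p ∈ PX (TT k x)}) → ZMod ((p : Nat.Primes) : ℕ)) : ℝ :=
  ∑ n ∈ survW (Ioc x (x + H)) (fun (p : {p // p ∈ PX (TT k x)}) n => Ph f (p : Nat.Primes) n) (K0 k E x) a,
    ∏ p ∈ KK k E x, (1 - (1 - u) * ((Ph f (p : Nat.Primes) n).card : ℝ) / (((p : Nat.Primes) : ℕ) : ℝ))

/-- the number of survivors in the window -/
noncomputable def NNW {g : ℕ} (f : Fin g → ℤ[X]) (k x H : ℕ)
    (a : (p : {p // p ∈ PX (TT k x)}) → ZMod ((p : Nat.Primes) : ℕ)) : ℝ :=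
  ((survW (Ioc x (x + H)) (fun (p : {p // p ∈ PX (TT k x)}) n => Ph f (p : Nat.Primes) n) univ a).card : ℝ)

/-- the properties which will be used -/
structure GoodW {g : ℕ} (f : Fin g → ℤ[X]) (k E x H : ℕ) : Prop where
  L1 : 16 ≤ Real.log x
  z1 : 1 ≤ zz E x
  zg : 2 * g ≤ zz E x
  zlow : Real.log x ^ E / 2 ≤ zz E x
  invV : (1 / V (zz E x)) ^ g ≤ Real.log x
  T1 : 1 ≤ TT k x
  sys : ∀ n : ℕ, x ≤ n → n ≤ x + H → (∀ i, 8 ≤ (f i).eval (n : ℤ)) ∧
    (∀ i, 2 ≤ lam f i n ∧ lam f i n ≤ TT k x ∧ 1 ≤ V (zz E x) * lam f i n) ∧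
    (∀ i j, i ≠ j → (f i).eval (n : ℤ) - (f j).eval (n : ℤ) ≠ 0) ∧
    (∀ i j, i ≠ j → Real.log |(((f i).eval (n : ℤ) - (f j).eval (n : ℤ) : ℤ) : ℝ)| ≤ TT k x)
  mono : ∀ n : ℕ, x ≤ n → hh f (n + 1) ≤ hh f n

theorem hhW_facts {g : ℕ} {f : Fin g → ℤ[X]} {k E x H : ℕ} (G : GoodW f k E x H) (n : ℕ) (hn : x ≤ n) :
    0 ≤ (if n ≤ x + H then hh f n else 0) ∧ (if n ≤ x + H then hh f n else 0) ≤ 1 ∧
      (if n + 1 ≤ x + H then hh f (n + 1) else 0) ≤ (if n ≤ x + H then hh f n else 0) := by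
  by_cases h : n ≤ x + H
  · obtain ⟨-, h2, -, -⟩ := G.sys n hn h
    have h3 : 0 ≤ hh f n := prod_nonneg fun i _ => by have := (h2 i).1; positivity
    have h4 : hh f n ≤ 1 := by
      refine prod_le_one (fun i _ => ?_) fun i _ => ?_
      · have := (h2 i).1; positivity
      · have := (h2 i).1
        rw [div_le_one (by linarith)]; linarith
    rw [if_pos h]
    refine ⟨h3, h4, ?_⟩
    split_ifs with h5
    · exact G.mono n hn
    · exact h3
  · rw [if_neg h, if_neg (by omega)]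
    exact ⟨le_rfl, zero_le_one, le_rfl⟩

/-- shifting a periodic condition does not increase the number of the classes -/
theorem shift_le (P : ℕ → Prop) {p : ℕ} (hp : 0 < p) (hper : ∀ n, P n ↔ P (n % p)) (s : ℕ) :
    (@Finset.filter ℕ (fun j => P (s + j)) (Classical.decPred _) (range p)).card ≤
      (@Finset.filter ℕ P (Classical.decPred _) (range p)).card := by
  refine card_le_card_of_injOn (fun j => (s + j) % p) ?_ ?_
  · intro j hj
    rw [mem_coe, mf', mem_range] at hj ⊢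
    exact ⟨Nat.mod_lt _ hp, (hper _).mp hj.2⟩
  · intro i hi j hj hij
    rw [mem_coe, mf', mem_range] at hi hj
    have h1 : s + i ≡ s + j [MOD p] := hij
    have h2 : i ≡ j [MOD p] := Nat.ModEq.add_left_cancel' s h1
    have h3 : i % p = j % p := h2
    rwa [Nat.mod_eq_of_lt hi.1, Nat.mod_eq_of_lt hj.1] at h3

theorem window_card (P : ℕ → Prop) (x H : ℕ) :
    (@Finset.filter ℕ P (Classical.decPred _) (Ioc x (x + H))).card =
      (@Finset.filter ℕ (fun j => P (x + j)) (Classical.decPred _) (Icc 1 H)).card := by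
  symm
  refine card_bij (fun j _ => x + j) ?_ ?_ ?_
  · intro j hj
    rw [mf', mem_Icc] at hj
    rw [mf', mem_Ioc]
    exact ⟨by omega, hj.2⟩
  · intro i _ j _ h
    omega
  · intro n hn
    rw [mf', mem_Ioc] at hn
    refine ⟨n - x, ?_, by omega⟩
    rw [mf', mem_Icc]
    refine ⟨by omega, ?_⟩
    rw [show x + (n - x) = n by omega]
    exact hn.2

/-- the number of solutions of a congruence in the window -/
theorem fiber_W {g : ℕ} (f : Fin g → ℤ[X]) (k : ℕ) (hd : ∀ i, 0 < (f i).natDegree)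
    (hk : ∑ i, (f i).natDegree ≤ k) (p : Nat.Primes) (hlc : ∀ i, ¬ ((p : ℕ) : ℤ) ∣ (f i).leadingCoeff) (x H : ℕ)
    (r : ZMod (p : ℕ)) :
    ((Ioc x (x + H)).filter (fun n => r ∈ Ph f p n)).card ≤ (H / (p : ℕ) + 1) * k := by
  classical
  set P : ℕ → Prop := fun n => ∃ i, (((f i).eval (n : ℤ) : ℤ) : ZMod (p : ℕ)) = r with hP
  have h1 : (Ioc x (x + H)).filter (fun n => r ∈ Ph f p n) ⊆
      @Finset.filter ℕ P (Classical.decPred _) (Ioc x (x + H)) := by
    intro n hn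
    rw [Finset.mem_filter] at hn
    rw [mf']
    refine ⟨hn.1, ?_⟩
    unfold Ph at hn
    obtain ⟨i, -, hi⟩ := Finset.mem_image.mp hn.2
    exact ⟨i, hi⟩
  refine (card_le_card h1).trans ?_
  have hper : ∀ n, P n ↔ P (n % (p : ℕ)) := by
    intro n
    refine exists_congr fun i => ?_
    have : (((f i).eval ((n % (p : ℕ) : ℕ) : ℤ) : ℤ) : ZMod (p : ℕ)) = (((f i).eval (n : ℤ) : ℤ) : ZMod (p : ℕ)) := by
      rw [← val_nat, ← val_nat, ZMod.natCast_mod]
    rw [this]
  rw [window_card]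
  have hper' : ∀ j, P (x + j) ↔ P (x + j % (p : ℕ)) := by
    intro j
    rw [hper (x + j), hper (x + j % (p : ℕ)), Nat.add_mod x (j % (p : ℕ)), Nat.mod_mod, ← Nat.add_mod]
  have h2 := per_count p.2.pos (fun j => P (x + j)) hper' H
  refine le_trans (le_trans (le_of_eq ?_) h2) (Nat.mul_le_mul_left _ ?_)
  · congr
  have h4 := shift_le P p.2.pos hper x
  refine le_trans (le_trans (le_of_eq ?_) h4) ?_
  · congr
  have h3 : @Finset.filter ℕ P (Classical.decPred _) (range (p : ℕ)) ⊆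
      univ.biUnion fun i : Fin g => (range (p : ℕ)).filter fun m =>
      (((f i).eval (m : ℤ) : ℤ) : ZMod (p : ℕ)) = r := by
    intro m hm
    rw [mf'] at hm
    obtain ⟨hm1, i, hi⟩ := hm
    rw [mem_biUnion]
    exact ⟨i, Finset.mem_univ _, Finset.mem_filter.mpr ⟨hm1, hi⟩⟩
  refine (card_le_card h3).trans (card_biUnion_le.trans (le_trans (sum_le_sum fun i _ => ?_) hk))
  refine few_val (f i) p.2 (hd i) (hlc i) r _ fun m hm => ?_
  rw [Finset.mem_filter, mem_range] at hm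
  exact hm

theorem surv_K0W {g : ℕ} {f : Fin g → ℤ[X]} {k E x H : ℕ} (G : GoodW f k E x H) (a : (p : Nat.Primes) → ZMod (p : ℕ)) :
    survW (Ioc x (x + H)) (fun (p : {p // p ∈ PX (TT k x)}) n => Ph f (p : Nat.Primes) n) (K0 k E x)
      ((PX (TT k x)).restrict a) =
    @Finset.filter ℕ (fun n => ∀ p ∈ pz (zz E x), ¬ Hit f a p n) (Classical.decPred _) (Ioc x (x + H)) := by
  classical
  ext n
  rw [mf']
  unfold survW
  rw [Finset.mem_filter]
  refine and_congr_right fun hn => ?_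
  rw [mem_Ioc] at hn
  obtain ⟨-, h2, -, -⟩ := G.sys n hn.1.le hn.2
  constructor
  · rintro h p hp ⟨hpp, i, hi⟩
    obtain ⟨hpz, -⟩ := mem_pz.1 hp
    have hVp : V (zz E x) ≤ V p := V_anti hpz
    obtain ⟨l1, l2, l3⟩ := h2 i
    have hlam : 1 ≤ V p * lam f i n := l3.trans (mul_le_mul_of_nonneg_right hVp (by linarith))
    have hPX : (⟨p, hpp⟩ : Nat.Primes) ∈ PX (TT k x) :=
      mem_PX.mpr (hlam.trans (mul_le_mul_of_nonneg_left l2 (V_nonneg _)))
    refine h ⟨⟨p, hpp⟩, hPX⟩ ?_ ?_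
    · unfold K0
      rw [Finset.mem_filter]
      exact ⟨Finset.mem_univ _, not_lt.mpr hpz⟩
    · unfold Ph
      rw [Finset.mem_image]
      refine ⟨i, ?_, hi⟩
      unfold rel
      rw [Finset.mem_filter]
      exact ⟨Finset.mem_univ _, hlam⟩
  · intro h p hp hmem
    unfold K0 at hp
    rw [Finset.mem_filter] at hp
    unfold Ph at hmem
    rw [Finset.mem_image] at hmem
    obtain ⟨i, -, hi⟩ := hmem
    refine h ((p : Nat.Primes) : ℕ) ?_ ⟨(p : Nat.Primes).2, i, hi⟩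
    rw [mem_pz]
    exact ⟨not_lt.mp hp.2, (p : Nat.Primes).2⟩

theorem WW_closeW {g : ℕ} {f : Fin g → ℤ[X]} {k E x H : ℕ} (G : GoodW f k E x H) {u : ℝ} (hu : |u| ≤ 1)
    (a : (p : Nat.Primes) → ZMod (p : ℕ)) :
    |WWW f k E x H u ((PX (TT k x)).restrict a) - (1 / V (zz E x)) ^ g *
      ∑ n ∈ @Finset.filter ℕ (fun n => ∀ p ∈ pz (zz E x), ¬ Hit f a p n) (Classical.decPred _) (Ioc x (x + H)),
        hh f n| ≤ (H : ℝ) * (|u| * g * TT k x + g * g ^ 2 * (2 * TT k x) / zz E x + g ^ 2 * (2 / zz E x) +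
          Real.log x * (g * (2 / zz E x))) := by
  classical
  unfold WWW
  rw [surv_K0W G a, mul_sum, ← sum_sub_distrib]
  set S := @Finset.filter ℕ (fun n => ∀ p ∈ pz (zz E x), ¬ Hit f a p n) (Classical.decPred _) (Ioc x (x + H))
  have hT0 : 0 < TT k x := by linarith [G.T1]
  have hz0 : (0 : ℝ) < zz E x := by exact_mod_cast G.z1
  have hL := G.L1
  set δ : ℝ := |u| * g * TT k x + g * g ^ 2 * (2 * TT k x) / zz E x + g ^ 2 * (2 / zz E x) +
          Real.log x * (g * (2 / zz E x)) with hδ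
  have hδ0 : 0 ≤ δ := by positivity
  have h1 : ∀ n ∈ S, |∏ p ∈ KK k E x, (1 - (1 - u) * ((Ph f (p : Nat.Primes) n).card : ℝ) /
      (((p : Nat.Primes) : ℕ) : ℝ)) - (1 / V (zz E x)) ^ g * hh f n| ≤ δ := by
    intro n hn
    have hn' := (mf'.mp hn).1
    rw [mem_Ioc] at hn'
    obtain ⟨-, h2, h3, h4⟩ := G.sys n hn'.1.le hn'.2
    have h5 := pointwise f (u := u) G.T1 G.z1 G.zg hT0.le (fun i => by linarith [(h2 i).1]) (fun i => (h2 i).2.1)
      (fun i => (h2 i).2.2) h3 h4 hu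
    refine h5.trans ?_
    rw [hδ]
    refine add_le_add (add_le_add_left (add_le_add_left ?_ _) _) ?_
    · apply mul_le_mul_of_nonneg_left _ (by positivity)
      have := Real.log_le_sub_one_of_pos hT0
      linarith
    · exact mul_le_mul_of_nonneg_right G.invV (by positivity)
  refine (abs_sum_le_sum_abs _ _).trans ((sum_le_sum h1).trans ?_)
  rw [sum_const, nsmul_eq_mul]
  apply mul_le_mul_of_nonneg_right _ hδ0
  have h2 : S.card ≤ H := by
    have h3 : S.card ≤ (Ioc x (x + H)).card := card_le_card fun n hn => (mf'.mp hn).1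
    rw [Nat.card_Ioc] at h3
    omega
  exact_mod_cast h2

theorem NN_closeW {g : ℕ} {f : Fin g → ℤ[X]} {k E U x H : ℕ} (G : GoodW f k E x H) (hE : U + 1 ≤ E)
    (a : (p : Nat.Primes) → ZMod (p : ℕ))
    (hc1 : NNW f k x H ((PX (TT k x)).restrict a) ≤
        WWW f k E x H (1 / Real.log x ^ (U + 2)) ((PX (TT k x)).restrict a) + H / Real.log x ^ U)
    (hc2 : WWW f k E x H (-(1 / Real.log x ^ (U + 2))) ((PX (TT k x)).restrict a) - H / Real.log x ^ U ≤
        NNW f k x H ((PX (TT k x)).restrict a))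
    (hcount : ∀ y, x ≤ y → y ≤ x + H →
      |(((@Finset.filter ℕ (fun n => ∀ p ∈ pz (zz E x), ¬ Hit f a p n) (Classical.decPred _) (Ioc x y)).card : ℕ) : ℝ) -
        ((y : ℝ) - x) * PP f a (zz E x)| ≤ 2 ^ (U + 1 + 1) * (H / Real.log x ^ (U + 1))) :
    |NNW f k x H ((PX (TT k x)).restrict a) - PP f a (zz E x) / V (zz E x) ^ g * ∑ n ∈ Ioc x (x + H), hh f n| ≤
      C0 g k U * (H / Real.log x ^ U) := by
  have hL := G.L1
  set L : ℝ := Real.log x with hLd
  have hL0 : 0 < L := by linarith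
  have hL1 : 1 ≤ L := by linarith
  have hx0 : (0 : ℝ) ≤ (H : ℝ) := Nat.cast_nonneg _
  have hg0 : (0 : ℝ) ≤ g := Nat.cast_nonneg _
  have hk0 : (0 : ℝ) ≤ k := Nat.cast_nonneg _
  have hLU : 0 < L ^ U := by positivity
  have hz0 : (0 : ℝ) < zz E x := by exact_mod_cast G.z1
  set z := zz E x with hz
  have hVz := V_pos z
  set I : ℝ := (1 / V z) ^ g with hI
  have hI0 : 0 ≤ I := by positivity
  set M : ℝ := ∑ n ∈ @Finset.filter ℕ (fun n => ∀ p ∈ pz z, ¬ Hit f a p n) (Classical.decPred _) (Ioc x (x + H)),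
        hh f n with hM
  set HS : ℝ := ∑ n ∈ Ioc x (x + H), hh f n with hHS
  -- 1 / z
  have hzinv : 1 / (z : ℝ) ≤ 2 / L ^ (U + 1) := by
    have h1 := G.zlow
    have h2 : L ^ (U + 1) ≤ L ^ E := pow_le_pow_right₀ hL1 hE
    rw [div_le_div_iff₀ hz0 (by positivity)]
    linarith
  have hpowU : L ^ (U + 1) = L ^ U * L := pow_succ _ _
  have hle1 : 1 / L ^ (U + 1) ≤ 1 / L ^ U := one_div_le_one_div_of_le hLU (by rw [hpowU]; nlinarith)
  -- the error of the weights
  have hδ : ∀ u : ℝ, |u| = 1 / L ^ (U + 2) → |u| * g * TT k x + g * g ^ 2 * (2 * TT k x) / z + g ^ 2 * (2 / z) +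
          L * (g * (2 / z)) ≤ (g * (k + 1) + 4 * (g * g ^ 2) * (k + 1) + 4 * g ^ 2 + 4 * g) * (1 / L ^ U) := by
    intro u hu
    have hT : TT k x = (k + 1) * L := rfl
    have t1 : |u| * g * TT k x ≤ g * (k + 1) * (1 / L ^ U) := by
      rw [hu, hT]
      have : 1 / L ^ (U + 2) * g * ((k + 1) * L) = g * (k + 1) * (1 / L ^ (U + 1)) := by
        rw [show L ^ (U + 2) = L ^ (U + 1) * L by ring]
        field_simp
      rw [this]
      exact mul_le_mul_of_nonneg_left hle1 (by positivity)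
    have t2 : g * g ^ 2 * (2 * TT k x) / (z : ℝ) ≤ 4 * (g * g ^ 2) * (k + 1) * (1 / L ^ U) := by
      have e1 : g * g ^ 2 * (2 * TT k x) / (z : ℝ) = g * g ^ 2 * (2 * ((k + 1) * L)) * (1 / z) := by
        rw [hT]; ring
      rw [e1]
      calc (g : ℝ) * g ^ 2 * (2 * ((k + 1) * L)) * (1 / z) ≤ g * g ^ 2 * (2 * ((k + 1) * L)) * (2 / L ^ (U + 1)) :=
            mul_le_mul_of_nonneg_left hzinv (by positivity)
        _ = 4 * (g * g ^ 2) * (k + 1) * (1 / L ^ U) := by rw [hpowU]; field_simp; ring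
    have t3 : (g : ℝ) ^ 2 * (2 / z) ≤ 4 * g ^ 2 * (1 / L ^ U) := by
      calc (g : ℝ) ^ 2 * (2 / z) = 2 * g ^ 2 * (1 / z) := by ring
        _ ≤ 2 * g ^ 2 * (2 / L ^ (U + 1)) := mul_le_mul_of_nonneg_left hzinv (by positivity)
        _ = 4 * g ^ 2 * (1 / L ^ (U + 1)) := by ring
        _ ≤ 4 * g ^ 2 * (1 / L ^ U) := mul_le_mul_of_nonneg_left hle1 (by positivity)
    have t4 : L * (g * (2 / z)) ≤ 4 * g * (1 / L ^ U) := by
      calc L * (g * (2 / z)) = 2 * g * L * (1 / z) := by ring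
        _ ≤ 2 * g * L * (2 / L ^ (U + 1)) := mul_le_mul_of_nonneg_left hzinv (by positivity)
        _ = 4 * g * (1 / L ^ U) := by rw [hpowU]; field_simp; ring
    linarith
  have hu1 : 1 / L ^ (U + 2) ≤ 1 := by
    rw [div_le_one (by positivity)]
    exact one_le_pow₀ hL1
  have hup : |1 / L ^ (U + 2)| = 1 / L ^ (U + 2) := abs_of_nonneg (by positivity)
  have hun : |-(1 / L ^ (U + 2))| = 1 / L ^ (U + 2) := by rw [abs_neg, hup]
  set D : ℝ := (g * (k + 1) + 4 * (g * g ^ 2) * (k + 1) + 4 * g ^ 2 + 4 * g) with hD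
  have w1 := (WW_closeW G (u := 1 / L ^ (U + 2)) (by rw [hup]; exact hu1) a).trans
    (mul_le_mul_of_nonneg_left (hδ _ hup) hx0)
  have w2 := (WW_closeW G (u := -(1 / L ^ (U + 2))) (by rw [hun]; exact hu1) a).trans
    (mul_le_mul_of_nonneg_left (hδ _ hun) hx0)
  have hxD : (H : ℝ) * (D * (1 / L ^ U)) = D * (H / L ^ U) := by ring
  rw [hxD] at w1 w2
  -- summation by parts
  have hab : |M - PP f a z * HS| ≤ 2 ^ (U + 1 + 1) * (H / L ^ (U + 1)) := by
    have h1 := abel (fun n => if n ≤ x + H then hh f n else 0) x (fun n hn => (hhW_facts G n hn).1)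
      (fun n hn => (hhW_facts G n hn).2.2)
      (fun n => ∀ p ∈ pz z, ¬ Hit f a p n) (PP f a z) (2 ^ (U + 1 + 1) * (H / L ^ (U + 1))) (x + H) (Nat.le_add_right _ _)
      (fun y h1 h2 => by
        refine le_trans (le_of_eq ?_) (hcount y h1 h2)
        congr)
    have e1 : ∑ n ∈ Ioc x (x + H), (if n ≤ x + H then hh f n else 0) = HS := by
      rw [hHS]
      refine sum_congr rfl fun n hn => ?_
      rw [mem_Ioc] at hn
      rw [if_pos hn.2]
    rw [e1] at h1
    have e2 : ∀ inst : DecidablePred (fun n => ∀ p ∈ pz z, ¬ Hit f a p n),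
        (∑ n ∈ @Finset.filter ℕ (fun n => ∀ p ∈ pz z, ¬ Hit f a p n) inst (Ioc x (x + H)),
          (if n ≤ x + H then hh f n else 0)) = M := by
      intro inst
      rw [hM]
      refine sum_congr ?_ fun n hn => ?_
      · ext n
        rw [mf', mf']
      · have := (mf'.mp hn).1
        rw [mem_Ioc] at this
        rw [if_pos this.2]
    rw [e2] at h1
    refine h1.trans ?_
    exact mul_le_of_le_one_right (by positivity) (hhW_facts G x le_rfl).2.1
  have hab2 : |I * M - I * (PP f a z * HS)| ≤ 2 ^ (U + 2) * (H / L ^ U) := by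
    rw [← mul_sub, abs_mul, abs_of_nonneg hI0]
    calc I * |M - PP f a z * HS| ≤ L * (2 ^ (U + 1 + 1) * (H / L ^ (U + 1))) :=
          mul_le_mul G.invV hab (abs_nonneg _) hL0.le
      _ = 2 ^ (U + 2) * (H / L ^ U) := by rw [hpowU]; field_simp
  have hSS : PP f a z / V z ^ g * HS = I * (PP f a z * HS) := by
    rw [hI, one_div, inv_pow]; ring
  rw [hSS]
  have hC : C0 g k U * (H / L ^ U) = H / L ^ U + 2 ^ (U + 2) * (H / L ^ U) + D * (H / L ^ U) := by
    unfold C0; rw [← hD]; ring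
  rw [hC]
  rw [abs_le] at w1 w2 hab2 ⊢
  constructor <;> linarith

theorem R_iffW {g : ℕ} {f : Fin g → ℤ[X]} {k E x H : ℕ} (G : GoodW f k E x H) (a : (p : Nat.Primes) → ZMod (p : ℕ))
    {n : ℕ} (hn1 : x < n) (hn2 : n ≤ x + H) : AllR f a n ↔
      ∀ p : {p // p ∈ PX (TT k x)}, ((PX (TT k x)).restrict a) p ∉ Ph f (p : Nat.Primes) n := by
  obtain ⟨h8, h2, -, -⟩ := G.sys n hn1.le hn2
  constructor
  · intro h p hmem
    unfold Ph at hmem
    rw [Finset.mem_image] at hmem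
    obtain ⟨i, hi, hia⟩ := hmem
    unfold rel at hi
    have hi2 := (Finset.mem_filter.mp hi).2
    obtain ⟨r, hr, hreq⟩ := h i
    obtain ⟨-, hr2⟩ := hr
    have hlam : lam f i n = Real.log r := by
      unfold lam
      rw [← hreq, Int.cast_natCast]
    rw [hlam] at hi2
    apply hr2 (p : Nat.Primes) hi2
    rw [← hreq, Int.cast_natCast] at hia
    exact hia
  · intro h i
    have h8i := h8 i
    have hto : (((f i).eval (n : ℤ)).toNat : ℤ) = (f i).eval (n : ℤ) := Int.toNat_of_nonneg (by linarith)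
    refine ⟨((f i).eval (n : ℤ)).toNat, ⟨?_, ?_⟩, hto⟩
    · have e1 : Real.exp 2 ≤ 8 := by
        have : Real.exp 2 = Real.exp 1 * Real.exp 1 := by rw [← Real.exp_add]; norm_num
        rw [this]
        have := Real.exp_one_lt_d9
        have := Real.exp_pos 1
        nlinarith
      refine e1.trans ?_
      have : 8 ≤ ((f i).eval (n : ℤ)).toNat := by omega
      exact_mod_cast this
    · intro p hp heq
      have hlam : lam f i n = Real.log (((f i).eval (n : ℤ)).toNat : ℕ) := by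
        unfold lam
        rw [← Int.cast_natCast (R := ℝ), hto]
      rw [← hlam] at hp
      have hmem : p ∈ PX (TT k x) := by
        rw [mem_PX]
        exact hp.trans (mul_le_mul_of_nonneg_left (h2 i).2.1 (V_nonneg _))
      refine h ⟨p, hmem⟩ ?_
      unfold Ph
      rw [Finset.mem_image]
      refine ⟨i, ?_, ?_⟩
      · unfold rel
        rw [Finset.mem_filter]
        exact ⟨Finset.mem_univ _, hp⟩
      · rw [← hto, Int.cast_natCast]
        exact heq

end Pool.Agent.W2helper64.SI
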