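import Pool.Agent.W2helper64.SI.Gen

set_option autoImplicit false
set_option linter.unusedSectionVars false

/-!
Short intervals in the random sieve: the concentration for all windows at once.
-/

namespace Pool.Agent.W2helper64.SI

open Finset Filter Topology Polynomial MeasureTheory Pool.Agent.W2helper64.RS Pool.Agent.W2helper64.RK
open Pool.Agent.W2helper64.BH
open Pool.Agent.H373R2.T7 (pz nuB PerB sys_count nuB_le mem_pz)

theorem law_badW {g : ℕ} (f : Fin g → ℤ[X]) (k : ℕ) (hk1 : 1 ≤ k) (hd : ∀ i, 0 < (f i).natDegree)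
    (hl : ∀ i, 0 < (f i).leadingCoeff) (hk : ∑ i, (f i).natDegree ≤ k) (U E : ℕ) (hE : 2 * U + 5 ≤ E)
    {σ : ℝ} (hσ : σ = 1 ∨ σ = -1) {x H : ℕ}
    (hL : 8 * k + 2 * g + ∑ i, ((f i).leadingCoeff.natAbs : ℝ) + 2 ≤ Real.log x) (hxE : Real.log x ^ E ≤ (H : ℝ))
    (hx2 : 2 ≤ x) :
    law {a | H / Real.log x ^ U ≤ σ * (NNW f k x H ((PX (TT k x)).restrict a) -
      WWW f k E x H (σ * (1 / Real.log x ^ (U + 2))) ((PX (TT k x)).restrict a))} ≤
        ENNReal.ofReal (1 / (x : ℝ) ^ 4) := by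
  classical
  have hk0 : (1 : ℝ) ≤ k := by exact_mod_cast hk1
  set L : ℝ := Real.log x with hLdef
  have hx0 : (0 : ℝ) < x := by exact_mod_cast (by omega : 0 < x)
  have hg0 : (0 : ℝ) ≤ g := Nat.cast_nonneg _
  have hS0 : 0 ≤ ∑ i, ((f i).leadingCoeff.natAbs : ℝ) := sum_nonneg fun _ _ => Nat.cast_nonneg _
  have hL1 : 1 ≤ L := by linarith
  have hL0 : 0 < L := by linarith
  have hLE : L ≤ L ^ E := le_self_pow₀ hL1 (by omega)
  have hH0 : (0 : ℝ) < H := by linarith
  set v : ℝ := L ^ E / (2 * k * H * L ^ (U + 2)) with hv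
  set d : ℝ := 2 * k * H / L ^ E with hdd
  have hv0 : 0 ≤ v := by positivity
  have hd0 : 0 ≤ d := by positivity
  have hvd : v * d = 1 / L ^ (U + 2) := by
    rw [hv, hdd]; field_simp
  have hvd1 : v * d ≤ 1 := by
    rw [hvd, div_le_one (by positivity)]
    exact one_le_pow₀ hL1
  have hvy : 4 * L ≤ v * (H / L ^ U) := by
    have e1 : v * (H / L ^ U) = L ^ E / (2 * k * L ^ (2 * U + 2)) := by
      rw [hv]; field_simp; ring
    rw [e1, le_div_iff₀ (by positivity)]
    have e2 : L ^ (2 * U + 5) ≤ L ^ E := pow_le_pow_right₀ hL1 hE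
    refine le_trans ?_ e2
    have e3 : L ^ (2 * U + 5) = L ^ (2 * U + 2) * (L * (L * L)) := by ring
    rw [e3]
    have h4 : 8 * k ≤ L := by linarith
    have h5 : 0 < L ^ (2 * U + 2) := by positivity
    have h6 : 4 * L * (2 * k) ≤ L * (L * L) := by
      have : 8 * k * 1 ≤ L * L := by
        apply mul_le_mul h4 hL1 (by norm_num) hL0.le
      nlinarith
    calc 4 * L * (2 * k * L ^ (2 * U + 2)) = L ^ (2 * U + 2) * (4 * L * (2 * k)) := by ring
      _ ≤ _ := mul_le_mul_of_nonneg_left h6 h5.le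
  have hKbig : ∀ p ∈ KK k E x, L ^ E < (((p : Nat.Primes) : ℕ) : ℝ) := by
    intro p hp
    have h1 : zz E x < ((p : Nat.Primes) : ℕ) := (Finset.mem_filter.mp hp).2
    unfold zz at h1
    exact (Nat.floor_lt (by positivity)).mp h1
  have h := tailW (Ioc x (x + H)) (fun (p : {p // p ∈ PX (TT k x)}) n => Ph f (p : Nat.Primes) n) (K0 k E x)
    (KK k E x) (disjoint_filter_filter_not _ _ _) hσ hv0 hd0 hvd1 (fun p hp r => by
      have hpE := hKbig p hp
      have hlc : ∀ i, ¬ (((p : Nat.Primes) : ℕ) : ℤ) ∣ (f i).leadingCoeff := by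
        intro i hdvd
        have h1 : ((p : Nat.Primes) : ℕ) ≤ (f i).leadingCoeff.natAbs := by
          refine Nat.le_of_dvd (Int.natAbs_pos.mpr (hl i).ne') ?_
          exact Int.natCast_dvd.mp hdvd
        have h2 : ((f i).leadingCoeff.natAbs : ℝ) ≤ ∑ i, ((f i).leadingCoeff.natAbs : ℝ) :=
          single_le_sum (f := fun i => ((f i).leadingCoeff.natAbs : ℝ)) (fun _ _ => Nat.cast_nonneg _) (Finset.mem_univ i)
        have h3 : (((p : Nat.Primes) : ℕ) : ℝ) ≤ ((f i).leadingCoeff.natAbs : ℝ) := by exact_mod_cast h1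
        linarith
      have h1 := fiber_W f k hd hk (p : Nat.Primes) hlc x H r
      have h2 : (((Ioc x (x + H)).filter (fun n => r ∈ Ph f (p : Nat.Primes) n)).card : ℝ) ≤
          ((H / ((p : Nat.Primes) : ℕ) + 1) * k : ℕ) := by exact_mod_cast h1
      refine h2.trans ?_
      push_cast
      have h3 : ((H / ((p : Nat.Primes) : ℕ) : ℕ) : ℝ) ≤ H / (((p : Nat.Primes) : ℕ) : ℝ) := Nat.cast_div_le
      have h4 : H / (((p : Nat.Primes) : ℕ) : ℝ) ≤ H / L ^ E :=
        div_le_div_of_nonneg_left hH0.le (by positivity) hpE.le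
      have h5 : 1 ≤ H / L ^ E := by
        rw [le_div_iff₀ (by positivity), one_mul]
        exact hxE
      calc (((H / ((p : Nat.Primes) : ℕ) : ℕ) : ℝ) + 1) * k ≤ (2 * (H / L ^ E)) * k := by
            apply mul_le_mul_of_nonneg_right _ (by linarith)
            linarith
        _ = d := by rw [hdd]; ring)
    (fun p hp n => by
      rw [ZMod.card]
      have hpE := hKbig p hp
      have h1 : ((Ph f (p : Nat.Primes) n).card : ℝ) ≤ g := by
        exact_mod_cast (Ph_card_le f (p : Nat.Primes) n).trans (rel_card_le f _ n)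
      linarith)
    (fun a => H / L ^ U ≤ σ * (NNW f k x H a - WWW f k E x H (σ * (1 / L ^ (U + 2))) a))
    (fun a ha => by
      refine ha.trans (le_of_eq ?_)
      unfold NNW WWW
      have hun : KK k E x ∪ K0 k E x = univ := filter_union_filter_not_eq _ _
      rw [hun, hvd]
      simp only [ZMod.card])
    (y := H / L ^ U)
  have h2 : {a | H / L ^ U ≤ σ * (NNW f k x H ((PX (TT k x)).restrict a) -
      WWW f k E x H (σ * (1 / L ^ (U + 2))) ((PX (TT k x)).restrict a))} =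
      {a : (p : Nat.Primes) → ZMod (p : ℕ) | (fun a => H / L ^ U ≤ σ * (NNW f k x H a -
        WWW f k E x H (σ * (1 / L ^ (U + 2))) a)) ((PX (TT k x)).restrict a)} := rfl
  have h2' := law_cyl (PX (TT k x)) (fun a => H / L ^ U ≤ σ * (NNW f k x H a -
        WWW f k E x H (σ * (1 / L ^ (U + 2))) a)) (inst := Classical.decPred _)
  rw [h2, h2']
  apply ENNReal.ofReal_le_ofReal
  have h3 : Real.exp (-(v * (H / L ^ U))) ≤ 1 / (x : ℝ) ^ 4 := by
    have h4 : Real.exp (-(v * (H / L ^ U))) ≤ Real.exp (-(4 * L)) := by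
      apply Real.exp_le_exp.mpr; linarith
    refine h4.trans (le_of_eq ?_)
    rw [Real.exp_neg, one_div]
    congr 1
    rw [hLdef, ← Real.exp_log hx0, Real.log_exp, ← Real.exp_nat_mul]
    norm_num
  refine le_trans (le_of_eq ?_) (h.trans h3)
  congr 1


/-- the bad event for some window -/
def BadW {g : ℕ} (f : Fin g → ℤ[X]) (k U E : ℕ) (σ : ℝ) (x H : ℕ) : Set ((p : Nat.Primes) → ZMod (p : ℕ)) :=
  {a | H / Real.log x ^ U ≤ σ * (NNW f k x H ((PX (TT k x)).restrict a) -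
      WWW f k E x H (σ * (1 / Real.log x ^ (U + 2))) ((PX (TT k x)).restrict a))}

theorem law_unionW {g : ℕ} (f : Fin g → ℤ[X]) (k : ℕ) (hk1 : 1 ≤ k) (hd : ∀ i, 0 < (f i).natDegree)
    (hl : ∀ i, 0 < (f i).leadingCoeff) (hk : ∑ i, (f i).natDegree ≤ k) (U E : ℕ) (hE : 2 * U + 5 ≤ E)
    {σ : ℝ} (hσ : σ = 1 ∨ σ = -1) : ∀ᶠ x : ℕ in atTop,
    law (⋃ H ∈ (range (x + 1)).filter (fun H : ℕ => Real.log x ^ E ≤ (H : ℝ)), BadW f k U E σ x H) ≤
      ENNReal.ofReal (1 * (1 / (x : ℝ) ^ 2)) := by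
  classical
  filter_upwards [ev_log (8 * k + 2 * g + ∑ i, ((f i).leadingCoeff.natAbs : ℝ) + 2), eventually_ge_atTop 2] with x hL hx2
  have hx0 : (2 : ℝ) ≤ x := by exact_mod_cast hx2
  refine (measure_biUnion_finset_le _ _).trans ?_
  have h1 : ∀ H ∈ (range (x + 1)).filter (fun H : ℕ => Real.log x ^ E ≤ (H : ℝ)),
      law (BadW f k U E σ x H) ≤ ENNReal.ofReal (1 / (x : ℝ) ^ 4) := by
    intro H hH
    exact law_badW f k hk1 hd hl hk U E hE hσ hL (Finset.mem_filter.mp hH).2 hx2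
  refine (sum_le_sum h1).trans ?_
  rw [← ENNReal.ofReal_sum_of_nonneg (fun _ _ => by positivity)]
  apply ENNReal.ofReal_le_ofReal
  rw [sum_const, nsmul_eq_mul]
  have h2 : (((range (x + 1)).filter (fun H : ℕ => Real.log x ^ E ≤ (H : ℝ))).card : ℝ) ≤ x + 1 := by
    have := card_filter_le (range (x + 1)) (fun H : ℕ => Real.log x ^ E ≤ (H : ℝ))
    rw [card_range] at this
    exact_mod_cast this
  calc (((range (x + 1)).filter (fun H : ℕ => Real.log x ^ E ≤ (H : ℝ))).card : ℝ) * (1 / (x : ℝ) ^ 4) ≤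
        (x + 1) * (1 / (x : ℝ) ^ 4) := mul_le_mul_of_nonneg_right h2 (by positivity)
    _ ≤ 1 * (1 / (x : ℝ) ^ 2) := by
        rw [mul_one_div, one_mul, div_le_div_iff₀ (by positivity) (by positivity)]
        have h3 : (x : ℝ) + 1 ≤ x ^ 2 := by nlinarith
        calc ((x : ℝ) + 1) * x ^ 2 ≤ x ^ 2 * x ^ 2 := mul_le_mul_of_nonneg_right h3 (by positivity)
          _ = 1 * x ^ 4 := by ring

theorem ae_concW {g : ℕ} (f : Fin g → ℤ[X]) (k : ℕ) (hk1 : 1 ≤ k) (hd : ∀ i, 0 < (f i).natDegree)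
    (hl : ∀ i, 0 < (f i).leadingCoeff) (hk : ∑ i, (f i).natDegree ≤ k) (U E : ℕ) (hE : 2 * U + 5 ≤ E) :
    ∀ᵐ a ∂law, ∀ᶠ x : ℕ in atTop, ∀ H : ℕ, H ≤ x → Real.log x ^ E ≤ (H : ℝ) →
      NNW f k x H ((PX (TT k x)).restrict a) ≤
        WWW f k E x H (1 / Real.log x ^ (U + 2)) ((PX (TT k x)).restrict a) + H / Real.log x ^ U ∧
      WWW f k E x H (-(1 / Real.log x ^ (U + 2))) ((PX (TT k x)).restrict a) - H / Real.log x ^ U ≤
        NNW f k x H ((PX (TT k x)).restrict a) := by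
  have h1 := bc _ 1 (by norm_num) (law_unionW f k hk1 hd hl hk U E hE (σ := 1) (Or.inl rfl))
  have h2 := bc _ 1 (by norm_num) (law_unionW f k hk1 hd hl hk U E hE (σ := -1) (Or.inr rfl))
  filter_upwards [h1, h2] with a h3 h4
  filter_upwards [h3, h4] with x h5 h6 H hHx hH
  have hmem : H ∈ (range (x + 1)).filter (fun H : ℕ => Real.log x ^ E ≤ (H : ℝ)) := by
    rw [Finset.mem_filter, mem_range]
    exact ⟨by omega, hH⟩
  have h7 : a ∉ BadW f k U E 1 x H := fun h => h5 (Set.mem_biUnion hmem h)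
  have h8 : a ∉ BadW f k U E (-1) x H := fun h => h6 (Set.mem_biUnion hmem h)
  unfold BadW at h7 h8
  simp only [Set.mem_ofPred_eq, not_le, one_mul, neg_mul] at h7 h8
  constructor <;> linarith

end Pool.Agent.W2helper64.SI
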